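import Mathlib

namespace Pool.Agent.Results.MP_98b1c4_co.Counter

/-- Regular type A sequences: the summed block is adjacent to the new entry. -/
inductive RegA : List ℕ → Prop
  | base : RegA [1, 1]
  | left (d c : List ℕ) : RegA d → c ≠ [] → c <+: d → RegA (c.sum :: d)
  | right (d c : List ℕ) : RegA d → c ≠ [] → c <:+ d → RegA (d ++ [c.sum])

/-- Lengths of regular type A sequences having an ordering of `ks` as a subsequence. -/
def lens (ks : List ℕ) : Set ℕ :=
  {n | ∃ d, RegA d ∧ d.length = n ∧ ∃ l : List ℕ, l.Perm ks ∧ l.Sublist d}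

noncomputable def a (ks : List ℕ) : ℕ := sInf (lens ks)

def G (T : List ℕ → Prop) : ℕ → List ℕ → Prop
  | 0, d => ¬T d
  | n + 1, d => ¬T d ∧ (∀ c, c <+: d → G T n (c.sum :: d)) ∧ ∀ c, c <:+ d → G T n (d ++ [c.sum])

lemma G_of {T : List ℕ → Prop} {N : ℕ} (h0 : G T N [1, 1]) {d : List ℕ} (h : RegA d) :
    d.length ≤ N + 2 → G T (N + 2 - d.length) d := by
  induction h with
  | base => exact fun _ => h0
  | left d c _ _ hc ih =>
    intro h
    rw [List.length_cons] at h ⊢
    have := ih (by omega)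
    rw [show N + 2 - d.length = N + 2 - (d.length + 1) + 1 by omega] at this
    exact this.2.1 c hc
  | right d c _ _ hc ih =>
    intro h
    rw [List.length_append, List.length_singleton] at h ⊢
    have := ih (by omega)
    rw [show N + 2 - d.length = N + 2 - (d.length + 1) + 1 by omega] at this
    exact this.2.2 c hc

lemma G_not {T : List ℕ → Prop} : ∀ {n d}, G T n d → ¬T d
  | 0, _, h => h
  | _ + 1, _, h => h.1

lemma one : ∀ (r : ℕ) (d : List ℕ), 62 ∉ d → d.sum * 2 ^ r < 124 → G (62 ∈ ·) r d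
  | 0, _, h, _ => h
  | r + 1, d, h, s => by
    have p : 0 < 2 ^ r := by positivity
    rw [pow_succ] at s
    refine ⟨h, fun c hc => ?_, fun c hc => ?_⟩ <;>
    · have : c.sum ≤ d.sum := hc.sublist.sum_le_sum fun _ _ => Nat.zero_le _
      refine one r _ ?_ ?_
      · simp only [List.mem_cons, List.mem_append, List.not_mem_nil, h, or_false, false_or]
        nlinarith
      · simp only [List.sum_cons, List.sum_append, List.sum_nil]
        nlinarith

lemma two : ∀ (r : ℕ) (d : List ℕ), 57 ∉ d → 62 ∉ d → d.sum * 2 ^ r < 228 →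
    G (fun d => 57 ∈ d ∧ 62 ∈ d) r d
  | 0, _, h, _, _ => fun e => h e.1
  | 1, d, h, h', _ => ⟨fun e => h e.1, fun c _ e => by simp [h, h'] at e; omega,
      fun c _ e => by simp [h, h'] at e; omega⟩
  | r + 2, d, h, h', s => by
    have p : 0 < 2 ^ r := by positivity
    rw [pow_succ, pow_succ] at s
    refine ⟨fun e => h e.1, fun c hc => ?_, fun c hc => ?_⟩ <;>
    · have : c.sum ≤ d.sum := hc.sublist.sum_le_sum fun _ _ => Nat.zero_le _
      have : c.sum < 57 := by nlinarith
      refine two (r + 1) _ ?_ ?_ ?_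
      · simp only [List.mem_cons, List.mem_append, List.not_mem_nil, h, or_false, false_or]
        omega
      · simp only [List.mem_cons, List.mem_append, List.not_mem_nil, h', or_false, false_or]
        omega
      · simp only [List.sum_cons, List.sum_append, List.sum_nil, pow_succ]
        nlinarith

def chk : ℕ → List ℕ → Bool
  | 0, d => decide ¬(57 ∈ d ∧ 62 ∈ d)
  | n + 1, d => decide (57 ∉ d ∧ 62 ∉ d ∧ d.sum * 2 ^ (n + 1) < 228) ||
      (decide ¬(57 ∈ d ∧ 62 ∈ d) && (d.inits.all fun c => chk n (c.sum :: d)) &&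
        d.tails.all fun c => chk n (d ++ [c.sum]))

lemma chk_G : ∀ n d, chk n d = true → G (fun d => 57 ∈ d ∧ 62 ∈ d) n d
  | 0, d, h => (of_decide_eq_true h : ¬(57 ∈ d ∧ 62 ∈ d))
  | n + 1, d, h => by
    simp only [chk, Bool.or_eq_true, Bool.and_eq_true, List.all_eq_true, decide_eq_true_eq] at h
    rcases h with h | h
    · exact two _ _ h.1 h.2.1 h.2.2
    · exact ⟨h.1.1, fun c hc => chk_G n _ (h.1.2 c ((List.mem_inits _ _).2 hc)),
        fun c hc => chk_G n _ (h.2 c ((List.mem_tails _ _).2 hc))⟩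

theorem result : a [62] = 8 ∧ a [57, 62] = 10 ∧
    ¬∀ k l, 0 < k → k ≤ l → a [k, l] ≤ a [l] + 1 := by
  have r : RegA [16, 8, 4, 2, 1, 1] := .left _ [8, 4, 2, 1, 1] (.left _ [4, 2, 1, 1]
    (.left _ [2, 1, 1] (.left _ [1, 1] .base (by decide) (by decide)) (by decide) (by decide))
    (by decide) (by decide)) (by decide) (by decide)
  have e1 : a [62] = 8 := IsLeast.csInf_eq ⟨⟨[62, 32, 16, 8, 4, 2, 1, 1], .left _ [32, 16, 8, 4, 2]
    (.left _ [16, 8, 4, 2, 1, 1] r (by decide) (by decide)) (by decide) (by decide), rfl, [62],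
    .refl _, by decide⟩, fun n ⟨d, h, hn, l, p, s⟩ => by
      by_contra c
      exact G_not (G_of (one 5 [1, 1] (by decide) (by decide)) h (by omega))
        (s.subset (p.symm.subset (by simp)))⟩
  have e2 : a [57, 62] = 10 := IsLeast.csInf_eq ⟨⟨[24, 16, 8, 4, 2, 1, 1, 1, 57, 62],
    .right [24, 16, 8, 4, 2, 1, 1, 1, 57] [2, 1, 1, 1, 57] (.right [24, 16, 8, 4, 2, 1, 1, 1]
      [24, 16, 8, 4, 2, 1, 1, 1] (.right [24, 16, 8, 4, 2, 1, 1] [1] (.left _ [16, 8] r (by decide)
      (by decide)) (by decide) (by decide)) (by decide) (by decide)) (by decide) (by decide),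
    rfl, [57, 62], .refl _, by decide⟩, fun n ⟨d, h, hn, l, p, s⟩ => by
      by_contra c
      exact G_not (G_of (chk_G 7 [1, 1] (by decide +kernel)) h (by omega))
        ⟨s.subset (p.symm.subset (by simp)), s.subset (p.symm.subset (by simp))⟩⟩
  exact ⟨e1, e2, fun h => by have := h 57 62 (by omega) (by omega); omega⟩

end Pool.Agent.Results.MP_98b1c4_co.Counter
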